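import Mathlib

/-!
# Project WC, module M2: the potential
-/

set_option autoImplicit false

namespace Pool.Agent.Helper72.WC

open Finset

/-- the square sum after one round -/
theorem h71_sq_sum {V : Type*} [DecidableEq V] {R' W X : Finset V} {s0 : V → ℤ} {b : ℕ}
    (hW : W ⊆ R') (hX : X ⊆ W) :
    ∑ y ∈ R', (s0 y + (if y ∈ W then 1 else 0) - (if y ∈ X then (b : ℤ) else 0)) ^ 2 =
      ∑ y ∈ R', s0 y ^ 2 + ∑ y ∈ W, (2 * s0 y + 1) +
        ∑ y ∈ X, ((b : ℤ) ^ 2 - 2 * b - 2 * b * s0 y) := by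
  have h1 : ∀ y ∈ R', (s0 y + (if y ∈ W then 1 else 0) - (if y ∈ X then (b : ℤ) else 0)) ^ 2 =
      s0 y ^ 2 + (if y ∈ W then (2 * s0 y + 1) else 0) +
        (if y ∈ X then ((b : ℤ) ^ 2 - 2 * b - 2 * b * s0 y) else 0) := by
    intro y _
    by_cases hx : y ∈ X
    · rw [if_pos hx, if_pos (hX hx), if_pos hx, if_pos (hX hx)]; ring
    · by_cases hw : y ∈ W
      · rw [if_neg hx, if_pos hw, if_neg hx, if_pos hw]; ring
      · rw [if_neg hx, if_neg hw, if_neg hx, if_neg hw]; ring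
  rw [Finset.sum_congr rfl h1, Finset.sum_add_distrib, Finset.sum_add_distrib,
    Finset.sum_ite_mem, Finset.sum_ite_mem, Finset.inter_eq_right.2 hW,
    Finset.inter_eq_right.2 (hX.trans hW)]

theorem pot_abs {V : Type*} [DecidableEq V] {R W A X N : Finset V} {v : V} {s0 : V → ℤ}
    {n b t : ℕ} (hb : 1 ≤ b) (hbn : b ≤ n) (htn : t ≤ n) (hv : v ∈ R) (hW : W ⊆ R.erase v)
    (hA : A ⊆ W) (hX : X ⊆ A) (hN : N ⊆ X) (hcard : A.card = X.card * b) (hWn : W.card ≤ n)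
    (hWA : W.card ≤ A.card + 2 * b) (hmax : ∀ y ∈ R, s0 y ≤ s0 v) (ht : s0 v ≤ t)
    (hsum : ∑ y ∈ A, s0 y - b * ∑ y ∈ X, s0 y ≤ b * (7 * n))
    (hNs : ∀ y ∈ N, s0 y + 1 - b ≤ -(2 * n)) :
    ∃ t' : ℕ, (∀ y ∈ (R.erase v) \ N,
        s0 y + (if y ∈ W then 1 else 0) - (if y ∈ X then (b : ℤ) else 0) ≤ t') ∧
      3 * ∑ y ∈ (R.erase v) \ N,
          (s0 y + (if y ∈ W then 1 else 0) - (if y ∈ X then (b : ℤ) else 0)) ^ 2 +
        (t' : ℤ) ^ 3 + 12 * n ^ 2 * N.card ≤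
      3 * ∑ y ∈ R, s0 y ^ 2 + (t : ℤ) ^ 3 + 64 * n * b := by
  have hXW : X ⊆ W := hX.trans hA
  have hNR : N ⊆ R.erase v := (hN.trans hXW).trans hW
  have hb' : (1 : ℤ) ≤ b := by exact_mod_cast hb
  have hn' : (1 : ℤ) ≤ n := by exact_mod_cast hb.trans hbn
  have ht0 : (0 : ℤ) ≤ t := Int.natCast_nonneg t
  have htn' : (t : ℤ) ≤ n := by exact_mod_cast htn
  -- the sum over `W`
  have e1 : ∑ y ∈ W, s0 y ≤ ∑ y ∈ A, s0 y + 2 * b * t := by
    rw [← Finset.sum_sdiff hA, add_comm]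
    have h1 : ∑ y ∈ W \ A, s0 y ≤ ∑ _y ∈ W \ A, (t : ℤ) := by
      refine Finset.sum_le_sum fun y hy => ?_
      have h2 : y ∈ R := Finset.mem_of_mem_erase (hW (Finset.mem_sdiff.1 hy).1)
      exact (hmax y h2).trans ht
    rw [Finset.sum_const, nsmul_eq_mul] at h1
    have h3 : (W \ A).card ≤ 2 * b := by
      have := Finset.card_sdiff_add_card_eq_card hA
      omega
    have h4 : ((W \ A).card : ℤ) * t ≤ 2 * b * t := by
      refine mul_le_mul_of_nonneg_right ?_ ht0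
      exact_mod_cast h3
    linarith
  -- cardinalities
  have hXb : (X.card : ℤ) * b ≤ n := by
    have h1 : X.card * b ≤ n := by
      rw [← hcard]; exact (Finset.card_le_card hA).trans hWn
    exact_mod_cast h1
  have hW' : (W.card : ℤ) ≤ n := by exact_mod_cast hWn
  have hX0 : (0 : ℤ) ≤ X.card := Int.natCast_nonneg _
  have e2 : ∑ y ∈ W, (2 * s0 y + 1) + ∑ y ∈ X, ((b : ℤ) ^ 2 - 2 * b - 2 * b * s0 y) ≤
      19 * (b * n) + n := by
    rw [Finset.sum_add_distrib, ← Finset.mul_sum, Finset.sum_sub_distrib, ← Finset.mul_sum]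
    simp only [Finset.sum_const, nsmul_eq_mul, mul_one]
    have h1 : (X.card : ℤ) * ((b : ℤ) ^ 2 - 2 * b) ≤ b * n := by
      have h2 : (X.card : ℤ) * b * b ≤ n * b := mul_le_mul_of_nonneg_right hXb (by linarith)
      nlinarith
    have h3 : (b : ℤ) * t ≤ b * n := mul_le_mul_of_nonneg_left htn' (by linarith)
    have h4 : 2 * ∑ y ∈ W, s0 y ≤ 2 * ∑ y ∈ A, s0 y + 4 * (b * t) := by linarith
    have h5 : 2 * ∑ y ∈ A, s0 y - 2 * b * ∑ y ∈ X, s0 y ≤ 14 * (b * n) := by linarith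
    linarith
  have hsq := h71_sq_sum (s0 := s0) (b := b) hW hXW
  set s1 : V → ℤ := fun y =>
    s0 y + (if y ∈ W then 1 else 0) - (if y ∈ X then (b : ℤ) else 0) with hs1
  have e3 : ∑ y ∈ R, s0 y ^ 2 = ∑ y ∈ R.erase v, s0 y ^ 2 + s0 v ^ 2 :=
    (Finset.sum_erase_add R (fun y => s0 y ^ 2) hv).symm
  have e4 : ∑ y ∈ (R.erase v) \ N, s1 y ^ 2 + ∑ y ∈ N, s1 y ^ 2 = ∑ y ∈ R.erase v, s1 y ^ 2 :=
    Finset.sum_sdiff hNR
  have e5 : 4 * (n : ℤ) ^ 2 * N.card ≤ ∑ y ∈ N, s1 y ^ 2 := by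
    have h1 : ∑ _y ∈ N, 4 * (n : ℤ) ^ 2 ≤ ∑ y ∈ N, s1 y ^ 2 := by
      refine Finset.sum_le_sum fun y hy => ?_
      have h2 := hNs y hy
      have h3 : s1 y = s0 y + 1 - b := by
        simp only [hs1]
        rw [if_pos (hXW (hN hy)), if_pos (hN hy)]
      rw [h3]
      nlinarith
    rw [Finset.sum_const, nsmul_eq_mul] at h1
    linarith
  have hsq' : ∑ y ∈ R.erase v, s1 y ^ 2 = ∑ y ∈ R.erase v, s0 y ^ 2 + ∑ y ∈ W, (2 * s0 y + 1) +
        ∑ y ∈ X, ((b : ℤ) ^ 2 - 2 * b - 2 * b * s0 y) := hsq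
  have hle : ∀ y, s1 y ≤ s0 y + 1 := by
    intro y
    simp only [hs1]
    split_ifs <;> linarith
  have hmain : 3 * ∑ y ∈ (R.erase v) \ N, s1 y ^ 2 + 12 * n ^ 2 * N.card ≤
      3 * ∑ y ∈ R, s0 y ^ 2 - 3 * s0 v ^ 2 + 57 * (b * n) + 3 * n := by
    linarith
  have hbn1 : (n : ℤ) ≤ b * n := by nlinarith
  rcases lt_or_ge (s0 v) 0 with hneg | hpos
  · refine ⟨0, fun y hy => ?_, ?_⟩
    · have h1 : y ∈ R := Finset.mem_of_mem_erase (Finset.mem_sdiff.1 hy).1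
      have h2 := hmax y h1
      have h3 := hle y
      show s1 y ≤ _
      push_cast
      linarith
    · have h1 : (0 : ℤ) ≤ (t : ℤ) ^ 3 := by positivity
      have h2 : (0 : ℤ) ≤ s0 v ^ 2 := sq_nonneg _
      push_cast
      show 3 * ∑ y ∈ (R.erase v) \ N, s1 y ^ 2 + 0 ^ 3 + 12 * n ^ 2 * N.card ≤ _
      linarith
  · obtain ⟨s, hs⟩ := Int.eq_ofNat_of_zero_le hpos
    refine ⟨s + 1, fun y hy => ?_, ?_⟩
    · have h1 : y ∈ R := Finset.mem_of_mem_erase (Finset.mem_sdiff.1 hy).1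
      have h2 := hmax y h1
      have h3 := hle y
      show s1 y ≤ _
      push_cast
      linarith
    · have h1 : (s : ℤ) ≤ t := by rw [← hs]; exact ht
      have h2 : (s : ℤ) ^ 3 ≤ (t : ℤ) ^ 3 := pow_le_pow_left₀ (Int.natCast_nonneg s) h1 3
      rw [hs] at hmain
      show 3 * ∑ y ∈ (R.erase v) \ N, s1 y ^ 2 + ((s + 1 : ℕ) : ℤ) ^ 3 + 12 * n ^ 2 * N.card ≤ _
      push_cast
      have h3 : ((s : ℤ) + 1) ^ 3 = (s : ℤ) ^ 3 + 3 * (s : ℤ) ^ 2 + 3 * s + 1 := by ring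
      rw [h3]
      linarith

end Pool.Agent.Helper72.WC
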